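import Pool.Agent.H685_stab.Cert

/-!
If `{g > 0}` is nonempty and some nonconstant polynomial is bounded on it, then the quadratic
module generated by `g` is not stable.
-/

namespace Pool.Agent.Results.MP_63c74b_ag.BoundedUnstable

open MvPolynomial

/-- `f` lies in the quadratic module `M_g` of `ℝ[x,y]` generated by `g`. -/
def MemQM (g f : MvPolynomial (Fin 2) ℝ) : Prop :=
  ∃ σ₀ σ₁ : MvPolynomial (Fin 2) ℝ, IsSumSq σ₀ ∧ IsSumSq σ₁ ∧ f = σ₀ + σ₁ * g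

/-- The quadratic module `M_g` is stable. -/
def Stable (g : MvPolynomial (Fin 2) ℝ) : Prop :=
  ∃ ℓ : ℕ → ℕ, ∀ (d : ℕ) (f : MvPolynomial (Fin 2) ℝ), MemQM g f → f.totalDegree ≤ d →
    ∃ σ₀ σ₁ : MvPolynomial (Fin 2) ℝ, IsSumSq σ₀ ∧ IsSumSq σ₁ ∧ f = σ₀ + σ₁ * g ∧
      σ₀.totalDegree ≤ ℓ d ∧ (σ₁ * g).totalDegree ≤ ℓ d

lemma exists_pderiv_ne {p : MvPolynomial (Fin 2) ℝ} (hp : ∀ c : ℝ, p ≠ C c) :
    ∃ i, pderiv i p ≠ 0 := by
  by_contra hcon
  push Not at hcon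
  apply hp (coeff 0 p)
  ext m
  rw [coeff_C]
  split_ifs with h
  · rw [h]
  · obtain ⟨i, hi⟩ : ∃ i, m i ≠ 0 := by
      by_contra hm
      push Not at hm
      exact h (Finsupp.ext (fun i => (hm i).symm))
    have h1 := congrArg (coeff (m - Finsupp.single i 1)) (hcon i)
    rw [coeff_pderiv, coeff_zero] at h1
    have h2 : m - Finsupp.single i 1 + Finsupp.single i 1 = m := by
      apply tsub_add_cancel_of_le
      rw [Finsupp.single_le_iff]
      omega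
    rw [h2] at h1
    rcases mul_eq_zero.mp h1 with h3 | h3
    · exact h3
    · exfalso
      have h4 : (0 : ℝ) ≤ (((m - Finsupp.single i 1 : Fin 2 →₀ ℕ) i : ℕ) : ℝ) :=
        Nat.cast_nonneg _
      linarith

theorem result (g p : MvPolynomial (Fin 2) ℝ) (hU : ∃ P : Fin 2 → ℝ, 0 < eval P g)
    (hp : ∀ c : ℝ, p ≠ C c) (hb : ∃ B : ℝ, ∀ P : Fin 2 → ℝ, 0 < eval P g → |eval P p| ≤ B) :
    ¬ Stable g := by
  have hg : g ≠ 0 := by
    rintro rfl
    obtain ⟨P, hP⟩ := hU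
    simp at hP
  obtain ⟨N, θ, hN, hθ, hcert⟩ := Pool.Agent.H685_stab.exists_cert hg hb
  obtain ⟨i, hi⟩ := exists_pderiv_ne hp
  exact Pool.Agent.H685_stab.not_stable_of_cert hN hθ hcert hi hU

end Pool.Agent.Results.MP_63c74b_ag.BoundedUnstable
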