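import Pool.Agent.H685_stab.Crit

/-!
A complete criterion for the stability of the quadratic module `M_g` of `ℝ[x,y]` when `{g > 0}` is
nonempty and `g`, possibly after a polynomial automorphism of the plane, is Newton nondegenerate
at infinity or has a nonnegative weight whose leading form is positive somewhere.
-/

namespace Pool.Agent.Results.MP_63c74b_ag.NewtonCriterion

open MvPolynomial

/-- `f` lies in the quadratic module `M_g` of `ℝ[x,y]` generated by `g`. -/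
def MemQM (g f : MvPolynomial (Fin 2) ℝ) : Prop :=
  ∃ σ₀ σ₁ : MvPolynomial (Fin 2) ℝ, IsSumSq σ₀ ∧ IsSumSq σ₁ ∧ f = σ₀ + σ₁ * g

/-- The quadratic module `M_g` is stable. -/
def Stable (g : MvPolynomial (Fin 2) ℝ) : Prop :=
  ∃ ℓ : ℕ → ℕ, ∀ (d : ℕ) (f : MvPolynomial (Fin 2) ℝ), MemQM g f → f.totalDegree ≤ d →
    ∃ σ₀ σ₁ : MvPolynomial (Fin 2) ℝ, IsSumSq σ₀ ∧ IsSumSq σ₁ ∧ f = σ₀ + σ₁ * g ∧
      σ₀.totalDegree ≤ ℓ d ∧ (σ₁ * g).totalDegree ≤ ℓ d

/-- Only constant polynomials are bounded on `{g > 0}`. -/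
def OnlyConstantsBounded (g : MvPolynomial (Fin 2) ℝ) : Prop :=
  ∀ p : MvPolynomial (Fin 2) ℝ,
    (∃ B : ℝ, ∀ P : Fin 2 → ℝ, 0 < eval P g → |eval P p| ≤ B) → ∃ c : ℝ, p = C c

/-- The weight `w₁ i + w₂ j` of the monomial `x^i y^j`. -/
def weight (w : ℤ × ℤ) (m : Fin 2 →₀ ℕ) : ℤ := w.1 * m 0 + w.2 * m 1

/-- The leading form `g_w`: the sum of the terms of `g` of largest weight. -/
noncomputable def leadForm (w : ℤ × ℤ) (g : MvPolynomial (Fin 2) ℝ) : MvPolynomial (Fin 2) ℝ :=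
  open Classical in
  ∑ m ∈ g.support.filter (fun m => ∀ m' ∈ g.support, weight w m' ≤ weight w m),
    monomial m (coeff m g)

/-- The leading form `g_w` is positive at some point of the real torus. -/
def PosSomewhere (g : MvPolynomial (Fin 2) ℝ) (w : ℤ × ℤ) : Prop :=
  ∃ a b : ℝ, a ≠ 0 ∧ b ≠ 0 ∧ 0 < eval ![a, b] (leadForm w g)

/-- The leading form `g_w` is negative at every point of the real torus. -/
def NegEverywhere (g : MvPolynomial (Fin 2) ℝ) (w : ℤ × ℤ) : Prop :=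
  ∀ a b : ℝ, a ≠ 0 → b ≠ 0 → eval ![a, b] (leadForm w g) < 0

/-- `g` is nondegenerate at infinity: for every weight `w` with a positive entry, `g_w` is
positive somewhere or negative everywhere on the real torus. -/
def NondegAtInfinity (g : MvPolynomial (Fin 2) ℝ) : Prop :=
  ∀ w : ℤ × ℤ, (0 < w.1 ∨ 0 < w.2) → PosSomewhere g w ∨ NegEverywhere g w

theorem result (g : MvPolynomial (Fin 2) ℝ) (hU : ∃ P : Fin 2 → ℝ, 0 < eval P g)
    (φ : MvPolynomial (Fin 2) ℝ ≃ₐ[ℝ] MvPolynomial (Fin 2) ℝ)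
    (h : NondegAtInfinity (φ g) ∨
      ∃ w : ℤ × ℤ, w ≠ 0 ∧ 0 ≤ w.1 ∧ 0 ≤ w.2 ∧ PosSomewhere (φ g) w) :
    (Stable g ↔ OnlyConstantsBounded g) ∧
    (NondegAtInfinity (φ g) →
      (Stable g ↔ ∃ (w w' : ℤ × ℤ) (l l' : ℕ), PosSomewhere (φ g) w ∧ PosSomewhere (φ g) w' ∧
        0 < l * w.1 + l' * w'.1 ∧ 0 < l * w.2 + l' * w'.2)) := by
  have hU' := Pool.Agent.H685_stab.nonempty_equiv φ hU
  have hinv : Stable g ↔ Stable (φ g) := by
    constructor
    · intro hs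
      have h1 : Pool.Agent.H685_stab.StableQM (φ.symm (φ g)) := by
        rw [φ.symm_apply_apply]; exact hs
      exact Pool.Agent.H685_stab.stable_of_equiv φ.symm h1
    · exact fun hs => Pool.Agent.H685_stab.stable_of_equiv φ hs
  refine ⟨⟨fun hs => Pool.Agent.H685_stab.onlyConst_of_stable hU hs, fun hc => ?_⟩, fun hnd => ?_⟩
  · have hc' : Pool.Agent.H685_stab.OnlyConst (φ g) := Pool.Agent.H685_stab.onlyConst_equiv φ hc
    rw [hinv]
    rcases h with h | ⟨w, hw0, h1, h2, hw⟩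
    · exact Pool.Agent.H685_stab.nd_onlyConst hU' h hc'
    · exact Pool.Agent.H685_stab.stable_of_dir hU' hw h1 h2 hw0 hc'
  · rw [hinv]
    exact Pool.Agent.H685_stab.nd_iff hU' hnd

end Pool.Agent.Results.MP_63c74b_ag.NewtonCriterion
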