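import Pool.Agent.H685_stab.Exc

/-!
An explicit polynomial `g` in two variables such that `{g > 0}` is nonempty, only constant
polynomials are bounded on `{g > 0}`, and the quadratic module generated by `g` is not stable.
-/

namespace Pool.Agent.Results.MP_63c74b_ag.NoBoundedUnstable

open MvPolynomial

/-- `f` lies in the quadratic module `M_g` of `ℝ[x,y]` generated by `g`. -/
def MemQM (g f : MvPolynomial (Fin 2) ℝ) : Prop :=
  ∃ σ₀ σ₁ : MvPolynomial (Fin 2) ℝ, IsSumSq σ₀ ∧ IsSumSq σ₁ ∧ f = σ₀ + σ₁ * g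

/-- The quadratic module `M_g` is stable. -/
def Stable (g : MvPolynomial (Fin 2) ℝ) : Prop :=
  ∃ ℓ : ℕ → ℕ, ∀ (d : ℕ) (f : MvPolynomial (Fin 2) ℝ), MemQM g f → f.totalDegree ≤ d →
    ∃ σ₀ σ₁ : MvPolynomial (Fin 2) ℝ, IsSumSq σ₀ ∧ IsSumSq σ₁ ∧ f = σ₀ + σ₁ * g ∧
      σ₀.totalDegree ≤ ℓ d ∧ (σ₁ * g).totalDegree ≤ ℓ d

/-- The polynomial `c = x y (x - y)`. -/
noncomputable def cEx : MvPolynomial (Fin 2) ℝ := X 0 * X 1 * (X 0 - X 1)

/-- The polynomial `a = y - c`. -/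
noncomputable def aEx : MvPolynomial (Fin 2) ℝ := X 1 - cEx

/-- The polynomial `b = x - c`. -/
noncomputable def bEx : MvPolynomial (Fin 2) ℝ := X 0 - cEx

/-- The polynomial `g = 2 (1 + a² + b² + c²) - (a² b² + b² c² + c² a²)`. -/
noncomputable def gEx : MvPolynomial (Fin 2) ℝ :=
  2 * (1 + aEx ^ 2 + bEx ^ 2 + cEx ^ 2)
    - (aEx ^ 2 * bEx ^ 2 + bEx ^ 2 * cEx ^ 2 + cEx ^ 2 * aEx ^ 2)

theorem result :
    (∃ P : Fin 2 → ℝ, 0 < eval P gEx) ∧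
    (∀ p : MvPolynomial (Fin 2) ℝ,
      (∃ B : ℝ, ∀ P : Fin 2 → ℝ, 0 < eval P gEx → |eval P p| ≤ B) → ∃ c : ℝ, p = C c) ∧
    ¬ Stable gEx := by
  have hg : gEx = Pool.Agent.H685_stab.gx := rfl
  refine ⟨⟨0, ?_⟩, ?_, ?_⟩
  · simp [gEx, aEx, bEx, cEx]
    rw [map_ofNat]
    norm_num
  · rintro p ⟨B, hB⟩
    rw [hg] at hB
    exact Pool.Agent.H685_stab.const_of_Vm0 (Pool.Agent.H685_stab.Vm0_of_bdd hB)
  · rw [hg]
    exact Pool.Agent.H685_stab.gx_not_stable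

end Pool.Agent.Results.MP_63c74b_ag.NoBoundedUnstable
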